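import Pool.Agent.Helper98.DE.St

/-!
# Project DE (MP_d63854_co), module SVB: the bound given by a server
-/

set_option autoImplicit false

namespace Pool.Agent.Helper60.DE

open Pool.Agent.Helper98.DE
open Pool.Agent.Helper51.AJ (IsMinor Planar Apex ExMinor Con Tch)
open Pool.Agent.Helper12.NK (rst Kc cnt)
open Pool.Agent.Helper12.MA (dl Srv)

open Classical in
/-- SVB -/
theorem hSVB : StPCI → StPLB → StTFB → StSVB := by
  intro hC hP hT V _ G hn s x y hS
  obtain ⟨hsx, hsy, hpl⟩ := hS
  have hU0 : s ∉ Finset.univ.erase s := Finset.notMem_erase s _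
  have hUs : ((Finset.univ.erase s : Finset V) : Set V) = {s}ᶜ := by
    ext z
    simp
  have hcard : (Finset.univ.erase s : Finset V).card = Fintype.card V - 1 := by
    rw [Finset.card_erase_of_mem (Finset.mem_univ s), Finset.card_univ]
  have h2 : insert s (Finset.univ.erase s : Finset V) = Finset.univ := Finset.insert_erase (Finset.mem_univ s)
  have h1 := (hC V G (Finset.univ.erase s)).1 s hU0
  rw [h2] at h1
  have h3 := (hC V G (Finset.univ.erase s)).2.2.1 x y
  have h4 := (hC V G (Finset.univ.erase s)).2.2.2.2.2.1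
  have h5 : ((Finset.univ.erase s : Finset V).filter fun b => G.Adj s b).card = dg G s := by
    unfold dg
    rw [← Set.ncard_coe_finset]
    congr 1
    ext z
    simp only [Finset.coe_filter, Finset.mem_erase, Finset.mem_univ, and_true, Set.mem_ofPred_eq,
      SimpleGraph.mem_neighborSet]
    exact ⟨fun h => h.2, fun h => ⟨(G.ne_of_adj h).symm, h⟩⟩
  rw [h5] at h1
  have hpl' : Planar (rst (dl G x y) ((Finset.univ.erase s : Finset V) : Set V)) := by
    rw [hUs]
    exact hpl
  constructor
  · have h6 := hP V (dl G x y) (Finset.univ.erase s) (by omega) hpl'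
    omega
  · intro hF
    have h6 := hT V (dl G x y) (Finset.univ.erase s) (by omega) hpl'
      (fun a _ b _ c _ hab hbc hac => hF a (Set.mem_univ _) b (Set.mem_univ _) c (Set.mem_univ _)
        hab.1 hbc.1 hac.1)
    omega

end Pool.Agent.Helper60.DE
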